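import Pool.Agent.H34.L.TH161.KS.Defs

/-!
# (STD) the basic facts
-/

set_option autoImplicit false

open Finset Filter Topology
open scoped Classical

set_option linter.unusedSectionVars false

namespace Pool.Agent.TH720.KS_STD

open Pool.Agent.TH161.LW Pool.Agent.TH161.KS

lemma eN_pos (P : Type) [Fintype P] [PartialOrder P] : 0 < eN P := by
  unfold eN
  rw [Nat.card_pos_iff]
  refine ⟨?_, inferInstance⟩
  let _ : Fintype (LinearExtension P) := inferInstanceAs (Fintype P)
  let e : Fin (Fintype.card P) ≃o LinearExtension P :=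
    monoEquivOfFin (LinearExtension P) rfl
  let σ : P ≃ Fin (Fintype.card P) := e.symm.toEquiv
  refine ⟨σ, ?_⟩
  have hm : Monotone (toLinearExtension : P → LinearExtension P) := toLinearExtension.monotone
  intro a b hab
  refine lt_of_le_of_ne ?_ (fun h => hab.ne (σ.injective h))
  exact e.symm.monotone (hm hab.le)

section

variable {α : Type} [Fintype α] [PartialOrder α]

lemma om_nonempty {M : ℕ} (hM : 1 ≤ M) : (Om α M).Nonempty :=
  ⟨fun _ => 0, mem_Om.mpr ⟨fun _ => hM, monotone_const⟩⟩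

lemma unit_ge {M : ℕ} (hM : Fintype.card α ≤ M) : 1 ≤ unit α M := by
  unfold unit
  rw [le_div_iff₀ (by positivity)]
  have : (Fintype.card α : ℝ) ≤ M := by exact_mod_cast hM
  linarith

lemma pr_le_one (M : ℕ) (p : (α → ℕ) → Prop) : pr α M p ≤ 1 := by
  unfold TH161.KS.pr
  refine div_le_one_of_le₀ ?_ (by positivity)
  exact_mod_cast Finset.card_filter_le _ _

lemma ex_nonneg (M : ℕ) (X : (α → ℕ) → ℝ) (h : ∀ f, 0 ≤ X f) : 0 ≤ ex α M X := by
  unfold ex
  exact div_nonneg (Finset.sum_nonneg fun f _ => h f) (by positivity)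

lemma logConc (hLC : P_LC) (M : ℕ) (x y : α) :
    LogConc (Om α M) (fun f : α → ℕ => (f y : ℤ) - f x) := by
  intro k l j hj hjl
  exact hLC α M y x k l j hj hjl

lemma tail (hLC : P_LC) (hT : P_TAIL) {M : ℕ} (hne : (Om α M).Nonempty) (hu : 1 ≤ unit α M)
    (x y : α) (m S r : ℝ) (hS : ex α M (fun f => |dd M x y f - m|) ≤ S) :
    pr α M (fun f => r ≤ |dd M x y f - m|) ≤ 17 * Real.exp (-(r / (9 * (S + 1)))) := by
  have hS0 : 0 ≤ S := (ex_nonneg M _ fun f => abs_nonneg _).trans hS
  by_cases hr : r < 0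
  · have h1 : 0 ≤ -(r / (9 * (S + 1))) := by
      rw [← neg_div]
      exact div_nonneg (by linarith) (by positivity)
    have h2 := Real.one_le_exp h1
    have h3 := pr_le_one (α := α) M (fun f => r ≤ |dd M x y f - m|)
    linarith
  push Not at hr
  have hu0 : 0 < unit α M := by linarith
  have hc : (0 : ℝ) < (Om α M).card := by exact_mod_cast hne.card_pos
  have key : ∀ f : α → ℕ, |((((f y : ℤ) - f x : ℤ)) : ℝ) - m * unit α M| =
      |dd M x y f - m| * unit α M := by
    intro f
    unfold dd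
    rw [← abs_of_pos hu0, ← abs_mul, abs_of_pos hu0]
    congr 1
    push_cast
    field_simp
  have h1 := hT (α → ℕ) (Om α M) (fun f => (f y : ℤ) - f x) (logConc hLC M x y)
    (m * unit α M) (S * unit α M) (r * unit α M) (by positivity) (by
      simp only [key]
      rw [← Finset.sum_mul]
      unfold ex at hS
      rw [div_le_iff₀ hc] at hS
      nlinarith)
  simp only [key] at h1
  have h2 : ((Om α M).filter fun f => r * unit α M ≤ |dd M x y f - m| * unit α M) =
      (Om α M).filter fun f => r ≤ |dd M x y f - m| := by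
    refine Finset.filter_congr fun f _ => ?_
    exact mul_le_mul_iff_left₀ hu0
  rw [h2] at h1
  unfold TH161.KS.pr
  rw [div_le_iff₀ hc]
  refine h1.trans ?_
  refine mul_le_mul_of_nonneg_right (mul_le_mul_of_nonneg_left ?_ (by norm_num)) hc.le
  refine Real.exp_le_exp.mpr (neg_le_neg ?_)
  rw [div_le_div_iff₀ (by positivity) (by positivity)]
  nlinarith [mul_nonneg hr hS0, mul_nonneg hr (sub_nonneg.mpr hu)]

lemma mean_eq {M : ℕ} (hne : (Om α M).Nonempty) (hu : 1 ≤ unit α M) (x y : α) :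
    ((hh M y - hh M x) * unit α M) * (Om α M).card =
      ∑ f ∈ Om α M, ((((f y : ℤ) - f x : ℤ)) : ℝ) := by
  have hu0 : unit α M ≠ 0 := by linarith
  have hc : ((Om α M).card : ℝ) ≠ 0 := by exact_mod_cast hne.card_pos.ne'
  unfold hh ex
  rw [← sub_div, ← Finset.sum_sub_distrib]
  have : ∀ f : α → ℕ, (f y : ℝ) / unit α M - f x / unit α M =
      ((((f y : ℤ) - f x : ℤ)) : ℝ) / unit α M := by
    intro f
    push_cast
    ring
  simp only [this]
  rw [← Finset.sum_div]
  field_simp

lemma ball (hLC : P_LC) (hB : P_BALL) {M : ℕ} (hne : (Om α M).Nonempty) (hu : 1 ≤ unit α M)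
    (x y : α) (u w : ℝ) (hw : 0 ≤ w) :
    tau M x y * pr α M (fun f => u ≤ dd M x y f ∧ dd M x y f < u + w) ≤ 38 * (w + 1) := by
  have hu0 : 0 < unit α M := by linarith
  have hc : (0 : ℝ) < (Om α M).card := by exact_mod_cast hne.card_pos
  have key : ∀ f : α → ℕ, |((((f y : ℤ) - f x : ℤ)) : ℝ) - (hh M y - hh M x) * unit α M| =
      |dd M x y f - (hh M y - hh M x)| * unit α M := by
    intro f
    unfold dd
    rw [← abs_of_pos hu0, ← abs_mul, abs_of_pos hu0]
    congr 1
    push_cast
    field_simp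
  have h1 := hB (α → ℕ) (Om α M) (fun f => (f y : ℤ) - f x) (logConc hLC M x y)
    ((hh M y - hh M x) * unit α M) ⌈u * unit α M⌉ ⌈w * unit α M⌉₊ (mean_eq hne hu x y)
  simp only [key] at h1
  rw [← Finset.sum_mul] at h1
  have h2 : ((Om α M).filter fun f => u ≤ dd M x y f ∧ dd M x y f < u + w).card ≤
      ((Om α M).filter fun f => ⌈u * unit α M⌉ ≤ (f y : ℤ) - f x ∧
        (f y : ℤ) - f x < ⌈u * unit α M⌉ + ⌈w * unit α M⌉₊).card := by
    refine Finset.card_le_card ?_
    intro f hf
    rw [Finset.mem_filter] at hf ⊢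
    obtain ⟨hf0, hf1, hf2⟩ := hf
    unfold dd at hf1 hf2
    rw [le_div_iff₀ hu0] at hf1
    rw [div_lt_iff₀ hu0] at hf2
    refine ⟨hf0, ?_, ?_⟩
    · rw [Int.ceil_le]
      push_cast
      exact hf1
    · have h3 : (((f y : ℤ) - f x : ℤ) : ℝ) <
          ((⌈u * unit α M⌉ + (⌈w * unit α M⌉₊ : ℤ) : ℤ) : ℝ) := by
        push_cast
        have h4 := Int.le_ceil (u * unit α M)
        have h5 := Nat.le_ceil (w * unit α M)
        linarith [add_mul u w (unit α M)]
      exact_mod_cast h3
  have h3 : ((⌈w * unit α M⌉₊ : ℕ) : ℝ) ≤ w * unit α M + 1 :=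
    (Nat.ceil_lt_add_one (by positivity)).le
  have hsum : 0 ≤ ∑ f ∈ Om α M, |dd M x y f - (hh M y - hh M x)| :=
    Finset.sum_nonneg fun f _ => abs_nonneg _
  have h4 : (∑ f ∈ Om α M, |dd M x y f - (hh M y - hh M x)|) * unit α M *
      (((Om α M).filter fun f => u ≤ dd M x y f ∧ dd M x y f < u + w).card : ℝ) ≤
      38 * (w * unit α M + 1) * ((Om α M).card : ℝ) ^ 2 := by
    calc (∑ f ∈ Om α M, |dd M x y f - (hh M y - hh M x)|) * unit α M *
          (((Om α M).filter fun f => u ≤ dd M x y f ∧ dd M x y f < u + w).card : ℝ)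
        ≤ (∑ f ∈ Om α M, |dd M x y f - (hh M y - hh M x)|) * unit α M *
          (((Om α M).filter fun f => ⌈u * unit α M⌉ ≤ (f y : ℤ) - f x ∧
          (f y : ℤ) - f x < ⌈u * unit α M⌉ + ⌈w * unit α M⌉₊).card : ℝ) :=
          mul_le_mul_of_nonneg_left (by exact_mod_cast h2) (by positivity)
      _ ≤ 38 * (⌈w * unit α M⌉₊ : ℝ) * ((Om α M).card : ℝ) ^ 2 := h1
      _ ≤ 38 * (w * unit α M + 1) * ((Om α M).card : ℝ) ^ 2 := by gcongr
  unfold tau ex TH161.KS.pr
  rw [div_mul_div_comm, div_le_iff₀ (by positivity)]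
  set A := ∑ f ∈ Om α M, |dd M x y f - (hh M y - hh M x)| with hA
  set B := (((Om α M).filter fun f => u ≤ dd M x y f ∧ dd M x y f < u + w).card : ℝ) with hBdef
  have h5 : A * B * unit α M ≤ 38 * (w + 1) * ((Om α M).card * (Om α M).card) * unit α M := by
    calc A * B * unit α M = A * unit α M * B := by ring
      _ ≤ 38 * (w * unit α M + 1) * ((Om α M).card : ℝ) ^ 2 := h4
      _ ≤ 38 * (w * unit α M + unit α M) * ((Om α M).card : ℝ) ^ 2 := by gcongr
      _ = _ := by ring
  refine le_of_mul_le_mul_right (le_trans (le_of_eq ?_) h5) hu0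
  rw [hBdef]
  congr!

lemma ninj : ∀ᶠ M : ℕ in atTop, pr α M (fun f => ¬ Function.Injective f) ≤
    1 / ((Fintype.card α : ℝ) + 1) ^ 4 := by
  have h1 := tendsto_noninj (α := α)
  have h2 := tendsto_Om (α := α)
  have h3 : (0 : ℝ) < (eN α : ℝ) * (1 / (Fintype.card α).factorial) := by
    have : (0 : ℝ) < eN α := by exact_mod_cast eN_pos α
    have hf : (0 : ℝ) < (Fintype.card α).factorial := by
      exact_mod_cast (Fintype.card α).factorial_pos
    positivity
  have h4 := h1.div h2 h3.ne'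
  rw [zero_div] at h4
  have h5 : (0 : ℝ) < 1 / ((Fintype.card α : ℝ) + 1) ^ 4 := by positivity
  filter_upwards [h4.eventually_le_const h5, eventually_gt_atTop 0] with M hM hM0
  refine le_trans (le_of_eq ?_) hM
  have : ((M : ℝ) ^ Fintype.card α) ≠ 0 := by positivity
  unfold TH161.KS.pr
  simp only [Pi.div_apply]
  rw [div_div_div_cancel_right₀ this]
  congr!

end

theorem t_STD : P_STD := by
  intro hLC hT hB hL hG α _ _
  filter_upwards [hL hG α, ninj (α := α), eventually_ge_atTop 1,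
    eventually_ge_atTop (Fintype.card α)] with M h1 h2 h3 h4
  have hne := om_nonempty (α := α) h3
  have hu := unit_ge (α := α) h4
  exact
    { ne := hne
      unit_ge := hu
      tail := fun x y m S r hS => tail hLC hT hne hu x y m S r hS
      ball := fun x y u w hw => ball hLC hB hne hu x y u w hw
      cpos := h1.1
      ninj := h2
      lln := h1.2 }

end Pool.Agent.TH720.KS_STD
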